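import Pool.Agent.Q86.TO12
import Pool.Agent.TH188.WP.RatF

/-!
MP_19ffc6_ag: resolution of singularities, in all dimensions, of the closures `X ⊆ S × 𝔸^q` of
families of affine subspaces of `𝔸^q` parametrized by a dense open subset of an affine surface `S`
over a perfect field of characteristic `p` (for instance of the main components of the linear fibre
spaces `{(s, y) : F(s) y = g(s)}` over `S`), and of their quotients by group schemes of order `p`
over `S` which act by translations of `𝔸^q` and preserve `X`.
-/

set_option autoImplicit false

open AlgebraicGeometry CategoryTheory MvPolynomial Pool.Agent.W558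

universe u

namespace Pool.Agent.Results.MP_19ffc6_ag.AffineSubspaceFamilies

section defs

variable {R : Type u} [CommRing R] {q m r : ℕ}

/-- The `j`-th coordinate of the point `α u + β` of the affine subspace with the parameters
`u = (u_1, ..., u_m)`. -/
noncomputable def coordinate {E : Type u} [CommRing E] (α : Fin q → Fin m → E) (β : Fin q → E)
    (j : Fin q) : MvPolynomial (Fin m) E :=
  ∑ i, C (α j i) * X i + C (β j)

/-- The translation `u ↦ u + T w` in the direction of the vector `w`: the homomorphism
`E[u_1, ..., u_m] → E[u_1, ..., u_m][T]` which maps `u_i` to `u_i + w_i T`. -/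
noncomputable def translate {E : Type u} [CommRing E] (w : Fin m → E) :
    MvPolynomial (Fin m) E →ₐ[E] Polynomial (MvPolynomial (Fin m) E) :=
  aeval fun j => Polynomial.C (X j) + Polynomial.X * Polynomial.C (C (w j))

/-- The polynomial `f` is invariant under the group scheme `G_c = {t : t ^ p = c t}`, which acts by
`(t, u) ↦ u + t w`: `f (u + T w) = f (u)` in `E[u][T] / (T ^ p - c T)`. -/
def IsInvariant {E : Type u} [CommRing E] (p : ℕ) (c : E) (w : Fin m → E)
    (f : MvPolynomial (Fin m) E) : Prop :=
  Polynomial.X ^ p - Polynomial.C (C c) * Polynomial.X ∣ translate w f - Polynomial.C f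

/-- The coordinate ring of the closure `X` in `S × 𝔸^q`, `S = Spec R`, of the family of the affine
subspaces `{α(s) u + β(s)}` over the generic point of `S`: the image of `R[y_1, ..., y_q]` in the ring
of functions `E[u_1, ..., u_m]` of the affine subspace over the fraction field `E` of `R`. -/
noncomputable def coordinateRing (R : Type u) [CommRing R] {q m : ℕ}
    (α : Fin q → Fin m → FractionRing R) (β : Fin q → FractionRing R) :
    Subalgebra R (MvPolynomial (Fin m) (FractionRing R)) :=
  Algebra.adjoin R (Set.range (coordinate α β))

/-- The ring of the functions on `X` which are invariant under the group schemes `G_(c l)` acting by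
`(t, u) ↦ u + t (w l)`. -/
noncomputable def invariants (p : ℕ) (α : Fin q → Fin m → FractionRing R)
    (β : Fin q → FractionRing R) (c : Fin r → R) (w : Fin r → Fin m → FractionRing R) :
    Subalgebra R (MvPolynomial (Fin m) (FractionRing R)) where
  carrier := {f | f ∈ coordinateRing R α β ∧
    ∀ l, IsInvariant p (algebraMap R (FractionRing R) (c l)) (w l) f}
  mul_mem' := fun hf hg => ⟨Subalgebra.mul_mem _ hf.1 hg.1,
    fun l => (Pool.Agent.Q86.TO.inv p _ (w l)).mul_mem (hf.2 l) (hg.2 l)⟩
  add_mem' := fun hf hg => ⟨Subalgebra.add_mem _ hf.1 hg.1,
    fun l => (Pool.Agent.Q86.TO.inv p _ (w l)).add_mem (hf.2 l) (hg.2 l)⟩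
  algebraMap_mem' := fun a => ⟨Subalgebra.algebraMap_mem _ a, fun l =>
    (Pool.Agent.Q86.TO.inv p _ (w l)).algebraMap_mem (algebraMap R (FractionRing R) a)⟩

end defs

/-- The field `E` is the function field of a smooth projective surface over `k`, or a rational
function field in two variables, or such that any finite family of nonzero elements of `E` has its
zeros and poles in a simple normal crossings divisor on some smooth projective variety with
function field `E`. -/
def GoodField (k E : Type u) [Field k] [Field E] [Algebra k E] : Prop :=
  (Algebra.trdeg k E = 2 ∧ HasModel k E) ∨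
    Nonempty (E ≃ₐ[k] FractionRing (MvPolynomial (Fin 2) k)) ∨ HasLogModels k E

lemma GoodField.hasLM {k E : Type u} [Field k] [PerfectField k] [Field E] [Algebra k E]
    (h : GoodField k E) : Pool.Agent.W418.LCI.HasLM k E := by
  rcases h with h | ⟨⟨ε⟩⟩ | h
  · exact Pool.Agent.W418.LCI.hasLM_of_surface k E h.1 h.2
  · exact Pool.Agent.W418.LCI.hasLM_of_surface k E (ε.trdeg_eq.trans (trdeg_RF2 k))
      (Pool.Agent.TH188.WP.hasModel_of_equiv ε.symm (hasModel_RF2 k))
  · exact Pool.Agent.W418.LCI.hasLM_of_models k E h

/-- A matrix whose columns are linearly independent has a minor different from zero. -/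
lemma exists_minor {E : Type u} [Field E] {q m : ℕ} (α : Fin q → Fin m → E)
    (h : ∀ u : Fin m → E, (∀ j, ∑ i, α j i * u i = 0) → u = 0) :
    ∃ f : Fin m → Fin q, Pool.Agent.Q86.TO.dlt α f ≠ 0 := by
  classical
  have hspan : Submodule.span E (Set.range α) = ⊤ := by
    by_contra hne
    obtain ⟨φ, hφ, hφ0⟩ := Submodule.exists_le_ker_of_lt_top _ (lt_top_iff_ne_top.2 hne)
    apply hφ
    have h1 : (fun i => φ (Pi.single i 1)) = 0 := by
      apply h
      intro j
      have h2 : φ (α j) = 0 := hφ0 (Submodule.subset_span ⟨j, rfl⟩)
      rw [← h2]
      conv_rhs => rw [pi_eq_sum_univ' (α j), map_sum]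
      refine Finset.sum_congr rfl fun i _ => ?_
      rw [map_smul, smul_eq_mul]
    apply LinearMap.pi_ext'
    intro i
    apply LinearMap.ext_ring
    exact congrFun h1 i
  obtain ⟨s, hs, hss, hli⟩ := exists_linearIndependent E (Set.range α)
  rw [hspan] at hss
  let B : Module.Basis s E (Fin m → E) := Module.Basis.mk hli (by
    rw [Subtype.range_coe, hss])
  have hfin : Fintype s := FiniteDimensional.fintypeBasisIndex B
  have hcard : Fintype.card s = Fintype.card (Fin m) := by
    rw [← Module.finrank_eq_card_basis B, Module.finrank_fin_fun, Fintype.card_fin]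
  let ε : Fin m ≃ s := (Fintype.equivOfCardEq hcard).symm
  choose g hg using fun x : s => hs x.2
  refine ⟨fun i => g (ε i), ?_⟩
  have hli' : LinearIndependent E (fun i => α (g (ε i))) := by
    have e : (fun i => α (g (ε i))) = (Subtype.val : s → (Fin m → E)) ∘ ε := by
      funext i
      exact hg (ε i)
    rw [e]
    exact hli.comp _ ε.injective
  have h3 : IsUnit (Matrix.of fun i => α (g (ε i))) :=
    Matrix.linearIndependent_rows_iff_isUnit.1 hli'
  exact ((Matrix.isUnit_iff_isUnit_det _).1 h3).ne_zero

/-- Let `k` be a perfect field of characteristic `p` and `R` a finitely generated `k`-algebra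
without zero divisors, whose fraction field `E` is rational of transcendence degree two or the
function field of a smooth projective surface (or has log smooth models), `S = Spec R`. Let `α` be a
`q × m`-matrix with entries in `E` and linearly independent columns, and `β` a vector with entries
in `E`. For general points `s` of `S` the set `{α(s) u + β(s)}` is an affine subspace of dimension
`m` of `𝔸^q`; let `X ⊆ S × 𝔸^q` be the closure of this family of affine subspaces. The fibres of `X`
over the zeros and poles of the minors of `α` and `β` can have larger dimension, and `X` can have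
arbitrarily complicated singularities there. Let `c 1, ..., c r` be elements of `R`, and let
`ν 1, ..., ν r` be vectors with entries in `R` which are tangent to the affine subspaces,
`ν l = α (w l)`, so that the group scheme `G_(c l) = {t : t ^ p = c l * t}` of order `p` over `S` acts
on `X` by `(t, (s, y)) ↦ (s, y + t * ν l (s))`. The quotient of `X` by these `r` group schemes, the
spectrum of the ring of invariants, is a variety and has a resolution of singularities. In
particular (`r = 0`) the variety `X` itself has a resolution of singularities. -/
theorem result (p : ℕ) [Fact p.Prime] (k : Type u) [Field k] [CharP k p] [PerfectField k]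
    (R : Type u) [CommRing R] [IsDomain R] [Algebra k R] [Algebra.FiniteType k R]
    (hR : GoodField k (FractionRing R)) (q m r : ℕ) (α : Fin q → Fin m → FractionRing R)
    (hα : ∀ u : Fin m → FractionRing R, (∀ j, ∑ i, α j i * u i = 0) → u = 0)
    (β : Fin q → FractionRing R) (c : Fin r → R) (ν : Fin r → Fin q → R)
    (w : Fin r → Fin m → FractionRing R)
    (hw : ∀ l j, algebraMap R (FractionRing R) (ν l j) = ∑ i, α j i * w l i) :
    IsResolvableVariety (X := Spec (CommRingCat.of (invariants p α β c w)))
      (Spec.map (CommRingCat.ofHom (algebraMap k (invariants p α β c w)))) := by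
  refine Pool.Agent.Q86.TO.main_surf (p := p) hR.hasLM α β (exists_minor α hα)
    (List.ofFn fun l => (c l, w l)) ?_ _ ?_
  · intro it hit j
    obtain ⟨l, rfl⟩ := (List.mem_ofFn' _ _).1 hit
    exact ⟨ν l j, hw l j⟩
  · intro f
    rw [List.forall_mem_ofFn_iff]
    exact Iff.rfl

end Pool.Agent.Results.MP_19ffc6_ag.AffineSubspaceFamilies
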