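import Pool.Agent.Q299.TD.Reached

/-!
MP_19ffc6_ag: resolution of singularities in positive characteristic and arbitrary dimension, along
all valuations in a class which is closed under composition and under towers without defect.

Let `k` be a perfect field of characteristic `p > 0`, let `X` be an integral scheme of finite type
over `k`, and let `V` be a valuation ring of the function field `K` of `X` over `k` which is centred
on `X`. Let `IsReached k` be the smallest class of valuation rings `V` of fields `K` over `k` which
contains

* the trivial valuations, the discrete valuations of arbitrary finite rank (more generally the
  finite composites of discrete and divergent valuations), the divergent valuations, and the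
  valuations which are log uniformizable on all `k`-algebras of finite type in `V` with fraction
  field `K` (by Cossart and Piltant all valuations if the transcendence degree of `K` is at most
  `3`);

and which is closed under

* composition: `V` is the composite of `V₁` and a valuation ring `W` of the residue field of `V₁`,
  the class contains `V₁` and `W ∩ F` for every field `F` in the residue field of `V₁` which is
  finitely generated over `k`;
* towers without defect: `K` is reached from a subfield `E`, finitely generated over `k`, by
  finitely many steps of the following kinds, and the class contains `V ∩ E`: `L ⊂ L(t)` with `t`
  transcendental, such that the value of every polynomial in `t` is determined by a defectless key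
  polynomial; finite extensions `L ⊂ L'` without defect.

Let `V` be in the class and let `Spec A` be an affine neighbourhood of the centre of `V` on `X`.
Then for every closed subset `D` and every blowing-up `X₀` of `Spec A` there is a blowing-up `X'` of
`Spec A` which factors through `X₀`, is regular (that is, smooth over `k`) at the centre of `V`, and
such that the preimage of `D` and of the centre of the blowing-up is a divisor with simple normal
crossings there.

This covers all discrete valuations of finite rank of `K / k` (with arbitrary residue fields, not
necessarily finitely generated over `k`), and all valuations of finite extensions without defect of
fields with valuations in the class (for example, all Abhyankar valuations, by the generalized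
stability theorem), and their composites.
-/

set_option autoImplicit false

universe u

namespace Pool.Agent.Results.MP_19ffc6_ag.CompositesAndTowers

open Pool.Agent.Q299.TD
open Pool.Agent.Results.MP_5b7a2c_ag.KeyPolynomialTowers (IsLogUniformizable)
open Pool.Agent.Results.MP_5b7a2c_ag.DiscreteValuations (IsBaseRing adjoined)

/-- Let `k` be a perfect field of characteristic `p > 0`, let `K` be a field over `k`, and let `V`
be a valuation ring of `K` in the class `IsReached k`, that is, `V` is obtained from trivial,
discrete, divergent, or log uniformizable valuations by composition and by towers of transcendental
steps without limit key polynomials and finite extensions without defect. Let `A = k[G] ⊆ V` be a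
`k`-algebra of finite type with fraction field `K`, that is, an affine open subset `Spec A` of an
integral scheme of finite type over `k` with function field `K` which contains the centre of `V`.
Then for every closed subset `V(D)` of `Spec A` and for every blowing-up `X₀` of `Spec A` there is a
blowing-up of `Spec A` which factors through `X₀` and is a log resolution of singularities of
`(Spec A, V(D))` along `V`. -/
theorem result {k : Type u} [Field k] [PerfectField k] (p : ℕ) [Fact p.Prime] [CharP k p]
    {K : Type u} [Field K] [Algebra k K] (V : ValuationSubring K)
    (hV : IsReached k (algebraMap k K) V) (G : Set K) (hG : G.Finite) (A : Subring K)
    (hAG : A = (Algebra.adjoin k G).toSubring) (hA : IsModel V A) : IsLogUniformizable V A := by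
  have h1 : A = adjoined (algebraMap k K) G := by
    rw [hAG, Algebra.adjoin_eq_ring_closure]
    rfl
  subst h1
  exact logUnif_of_isReached (Pool.Agent.Results.MP_5b7a2c_ag.DiscreteValuations.isBaseRing_of_isField
    (Field.toIsField k)).hj (algebraMap k K) V hV G hG hA

end Pool.Agent.Results.MP_19ffc6_ag.CompositesAndTowers
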