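import Pool.Agent.Q86.TO8
import Pool.Agent.TH188.WP.RatF

/-!
MP_19ffc6_ag: resolution of singularities of the quotients of `S × 𝔸^a × 𝔸^m`, where `S` is an affine
surface over a perfect field of characteristic `p`, by group schemes of order `p` over `S` which act
by `(s, x, y) ↦ (s, x, y + t M(s) x)` for an arbitrary matrix `M` of functions on `S` (families of
linear actions), or, more generally, by translations along products of linear forms in `x`.
-/

set_option autoImplicit false

open AlgebraicGeometry CategoryTheory MvPolynomial Pool.Agent.W558

universe u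

namespace Pool.Agent.Results.MP_19ffc6_ag.LinearActionsOverSurfaces

section defs

variable {B : Type u} [CommRing B] {r m : ℕ}

/-- The translation `y ↦ y + T v` in the direction of the vector `v`: the homomorphism
`B[y_1, ..., y_m] → B[y_1, ..., y_m][T]` which maps `y_j` to `y_j + v_j T`. -/
noncomputable def translate (v : Fin m → B) :
    MvPolynomial (Fin m) B →ₐ[B] Polynomial (MvPolynomial (Fin m) B) :=
  aeval fun j => Polynomial.C (X j) + Polynomial.X * Polynomial.C (C (v j))

/-- The polynomial `f` is invariant under the group scheme `G_c = {t : t ^ p = c t}`, which acts by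
`(t, y) ↦ y + t v`: `f (y + T v) = f (y)` in `B[y][T] / (T ^ p - c T)`. -/
def IsInvariant (p : ℕ) (c : B) (v : Fin m → B) (f : MvPolynomial (Fin m) B) : Prop :=
  Polynomial.X ^ p - Polynomial.C (C c) * Polynomial.X ∣ translate v f - Polynomial.C f

/-- The ring of invariants of the group schemes `G_(c l)` acting by `(t, y) ↦ y + t (v l)`. -/
noncomputable def invariants (p : ℕ) (c : Fin r → B) (v : Fin r → Fin m → B) :
    Subalgebra B (MvPolynomial (Fin m) B) where
  carrier := {f | ∀ l, IsInvariant p (c l) (v l) f}
  mul_mem' := fun hf hg l => (Pool.Agent.Q86.TO.inv p (c l) (v l)).mul_mem (hf l) (hg l)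
  add_mem' := fun hf hg l => (Pool.Agent.Q86.TO.inv p (c l) (v l)).add_mem (hf l) (hg l)
  algebraMap_mem' := fun b l => (Pool.Agent.Q86.TO.inv p (c l) (v l)).algebraMap_mem b

end defs

/-- The field `E` is the function field of a smooth projective surface over `k`, or a rational
function field in two variables, or such that any finite family of nonzero elements of `E` has its
zeros and poles in a simple normal crossings divisor on some smooth projective variety with
function field `E`. -/
def GoodField (k E : Type u) [Field k] [Field E] [Algebra k E] : Prop :=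
  (Algebra.trdeg k E = 2 ∧ HasModel k E) ∨
    Nonempty (E ≃ₐ[k] FractionRing (MvPolynomial (Fin 2) k)) ∨ HasLogModels k E

lemma GoodField.hasLM {k E : Type u} [Field k] [PerfectField k] [Field E] [Algebra k E]
    (h : GoodField k E) : Pool.Agent.W418.LCI.HasLM k E := by
  rcases h with h | ⟨⟨ε⟩⟩ | h
  · exact Pool.Agent.W418.LCI.hasLM_of_surface k E h.1 h.2
  · exact Pool.Agent.W418.LCI.hasLM_of_surface k E (ε.trdeg_eq.trans (trdeg_RF2 k))
      (Pool.Agent.TH188.WP.hasModel_of_equiv ε.symm (hasModel_RF2 k))
  · exact Pool.Agent.W418.LCI.hasLM_of_models k E h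

/-- The product of the linear forms `∑ q, b i q * x_q` with coefficients `b i q` in `R`. -/
noncomputable def formProduct {R : Type u} [CommRing R] {a d : ℕ} (b : Fin d → Fin a → R) :
    MvPolynomial (Fin a) R :=
  ∏ i, ∑ q, C (b i q) * X q

/-- Let `k` be a perfect field of characteristic `p` and `R` a finitely generated `k`-algebra
without zero divisors, whose fraction field is rational of transcendence degree two or the function
field of a smooth projective surface (or has log smooth models), `S = Spec R`. Let
`c 1, ..., c r` be elements of `R`, `μ j = formProduct (b j)` a product of linear forms in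
`x_1, ..., x_a` with coefficients in `R`, for `j ≤ m`, and `e l j` elements of `R`. The group scheme
`G_(c l) = {t : t ^ p = c l * t}` of order `p` over `S` acts on `S × 𝔸^a × 𝔸^m` by
`(t, (s, x, y)) ↦ (s, x, (y_j + t * e l j (s) * μ j (s, x))_j)`. The quotient of `S × 𝔸^a × 𝔸^m` by
these `r` group schemes, the spectrum of the ring of invariants, is a variety and has a resolution
of singularities.

In particular (`r = 1`, `e = 1` and products of one factor) this holds for the quotient by any
family of linear actions `(s, x, y) ↦ (s, x, y + t * M(s) x)`, where `M` is an `m × a`-matrix with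
entries in `R`, which can degenerate arbitrarily, of a group scheme of order `p`, for instance of
the group `ℤ/p` (`c = 1`) or of the linear vector field `∑ M_jq x_q ∂/∂y_j` (`c = 0`). -/
theorem result (p : ℕ) [Fact p.Prime] (k : Type u) [Field k] [CharP k p] [PerfectField k]
    (R : Type u) [CommRing R] [IsDomain R] [Algebra k R] [Algebra.FiniteType k R]
    (hR : GoodField k (FractionRing R)) (a m r : ℕ) (c : Fin r → R) (e : Fin r → Fin m → R)
    (d : Fin m → ℕ) (b : ∀ j, Fin (d j) → Fin a → R) :
    IsResolvableVariety
      (X := Spec (CommRingCat.of (invariants p (fun l => (C (c l) : MvPolynomial (Fin a) R))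
        fun l j => C (e l j) * formProduct (b j))))
      (Spec.map (CommRingCat.ofHom (algebraMap k (invariants p
        (fun l => (C (c l) : MvPolynomial (Fin a) R)) fun l j => C (e l j) * formProduct (b j))))) := by
  refine Pool.Agent.Q86.TO.main_lin hR.hasLM
    (List.ofFn (fun l => ((C (c l) : MvPolynomial (Fin a) R),
      fun j => C (e l j) * formProduct (b j)))) (fun j => formProduct (b j))
    (fun j => ⟨d j, b j, rfl⟩) ?_ _ ?_
  · intro it hit
    obtain ⟨l, rfl⟩ := (List.mem_ofFn' _ _).1 hit
    exact ⟨⟨c l, rfl⟩, fun j => ⟨e l j, rfl⟩⟩
  · intro f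
    rw [List.forall_mem_ofFn_iff]
    exact Iff.rfl

end Pool.Agent.Results.MP_19ffc6_ag.LinearActionsOverSurfaces
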