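import Pool.Agent.Q86.TO14
import Pool.Agent.TH188.WP.RatF

/-!
MP_19ffc6_ag: resolution of singularities, in all dimensions, of the quotients `(B × 𝔸^m) / G` of
families of affine spaces over (singular) varieties `B` which are defined over a surface by a
complete system of relations between products of linear forms, by group schemes `G` of order `p`
(and products of such group schemes) which act by translations along vectors of products of forms.
-/

set_option autoImplicit false

open AlgebraicGeometry CategoryTheory MvPolynomial Pool.Agent.W558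

universe u

namespace Pool.Agent.Results.MP_19ffc6_ag.QuotientsOverFormVarieties

section defs

variable {R : Type u} [CommRing R] {m z : ℕ}

/-- The translation `y ↦ y + X v` in the direction of the vector `v`: the homomorphism
`R[y_1, ..., y_m] → R[y_1, ..., y_m][X]` which maps `y_j` to `y_j + v_j X`. -/
noncomputable def translate (v : Fin m → R) :
    MvPolynomial (Fin m) R →ₐ[R] Polynomial (MvPolynomial (Fin m) R) :=
  aeval fun j => Polynomial.C (X j) + Polynomial.X * Polynomial.C (C (v j))

/-- The polynomial `f` is invariant under the group scheme `G_c = {t : t ^ p = c t}`, which acts on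
`𝔸^m` by `(t, y) ↦ y + t v`: `f (y + X v) = f (y)` in `R[y][X] / (X ^ p - c X)`. -/
def IsInvariant (p : ℕ) (c : R) (v : Fin m → R) (f : MvPolynomial (Fin m) R) : Prop :=
  Polynomial.X ^ p - Polynomial.C (C c) * Polynomial.X ∣ translate v f - Polynomial.C f

/-- The ring of invariants of the group schemes `G_(c l)` acting by `(t, y) ↦ y + t (v l)`. -/
noncomputable def invariants (p : ℕ) (c : Fin z → R) (v : Fin z → Fin m → R) :
    Subalgebra R (MvPolynomial (Fin m) R) where
  carrier := {f | ∀ l, IsInvariant p (c l) (v l) f}
  mul_mem' := fun hf hg l => (Pool.Agent.Q86.TO.inv p (c l) (v l)).mul_mem (hf l) (hg l)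
  add_mem' := fun hf hg l => (Pool.Agent.Q86.TO.inv p (c l) (v l)).add_mem (hf l) (hg l)
  algebraMap_mem' := fun b l => (Pool.Agent.Q86.TO.inv p (c l) (v l)).algebraMap_mem b

/-- The degree modulo `p` of a product of `d s` elements of `V s` for all `s` and of the powers
`f l ^ e l`, where `f l` has the degree `deg l`. -/
def degree {p n r : ℕ} (deg : Fin r → Fin n → ZMod p) (d : Fin n → ℕ) (e : Fin r → ℕ) :
    Fin n → ZMod p :=
  fun s => d s + ∑ l, e l * deg l s

/-- The group of products of forms: the subgroup of the multiplicative group of `K` generated by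
the nonzero elements of `E`, the nonzero elements of the spaces `V s` and the nonzero `f l`. -/
def products {E K : Type u} [Field E] [Field K] [Algebra E K] {n r : ℕ}
    (V : Fin n → Submodule E K) (f : Fin r → K) : Subgroup Kˣ :=
  Subgroup.closure {x : Kˣ | (∃ b, algebraMap E K b = x) ∨ (∃ s, (x : K) ∈ V s) ∨ ∃ l, f l = x}

end defs

/-- The field `E` is the function field of a smooth projective surface over `k`, or a rational
function field in two variables, or such that any finite family of nonzero elements of `E` has its
zeros and poles in a simple normal crossings divisor on some smooth projective variety with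
function field `E`. -/
def GoodField (k E : Type u) [Field k] [Field E] [Algebra k E] : Prop :=
  (Algebra.trdeg k E = 2 ∧ HasModel k E) ∨
    Nonempty (E ≃ₐ[k] FractionRing (MvPolynomial (Fin 2) k)) ∨ HasLogModels k E

lemma GoodField.hasLM {k E : Type u} [Field k] [PerfectField k] [Field E] [Algebra k E]
    (h : GoodField k E) : Pool.Agent.W418.LCI.HasLM k E := by
  rcases h with h | ⟨⟨ε⟩⟩ | h
  · exact Pool.Agent.W418.LCI.hasLM_of_surface k E h.1 h.2
  · exact Pool.Agent.W418.LCI.hasLM_of_surface k E (ε.trdeg_eq.trans (trdeg_RF2 k))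
      (Pool.Agent.TH188.WP.hasModel_of_equiv ε.symm (hasModel_RF2 k))
  · exact Pool.Agent.W418.LCI.hasLM_of_models k E h

/-- Let `k` be a perfect field of characteristic `p`, let `E` be the function field of a smooth
projective surface over `k` (or rational of transcendence degree two, or a field with log smooth
models), and `K` a field extension of `E` which is generated by finite-dimensional `E`-subspaces
`V 0, ..., V (n - 1)`. Let `f 0, ..., f (r - 1)` be elements of `K` such that each `f j` is a sum of
terms, where a term is the product of a nonzero element `a j i` of `E`, of `d j i s` nonzero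
elements `g j i s t` of `V s` for all `s`, and of powers of elements `f l ≠ 0` with `l < j`. Give
`f j` the degree (in `(ℤ/p)^n`) of its first term, and suppose that the differences of the degrees
of the other terms of `f j` and the degree of `f j`, for all `j` together, are linearly independent
modulo `p`, and that the relations `f j = 0` are complete: the transcendence degree of `K` over `E`
is the sum of the dimensions of the `V s` minus the number of indices `j` with `f j = 0`.

Let `R` be a `k`-algebra with fraction field `K` which is generated by a finite set `S` of products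
of forms (elements of the group `products V f`), and `B = Spec R`. Let `c 1, ..., c z` be elements
of `R` and `v 1, ..., v z` vectors of length `m` of elements of `R` such that
`c l = b l * (ε l) ^ (p - 1)` and `v l j = b' l j * μ j / ε l` with `b l, b' l j` in `E` and with
products of forms `μ j`, `ε l`. The group scheme `G_(c l) = {t : t ^ p = c l * t}` of order `p` over
`B` acts on `B × 𝔸^m` by `(t, (x, y)) ↦ (x, y + t * v l (x))`. Then the quotient of `B × 𝔸^m` by
these `z` group schemes, the spectrum of the ring of invariants, is a variety and has a resolution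
of singularities. -/
theorem result (p : ℕ) [Fact p.Prime] (k E K R : Type u) [Field k] [PerfectField k] [CharP k p]
    [Field E] [Algebra k E] (hE : GoodField k E)
    [Field K] [Algebra E K] [Algebra k K] [IsScalarTower k E K]
    (n : ℕ) (V : Fin n → Submodule E K) [∀ s, FiniteDimensional E (V s)]
    (hgen : IntermediateField.adjoin E (⋃ s, (V s : Set K)) = ⊤)
    (r : ℕ) (ι : Fin r → Type) [∀ j, Fintype (ι j)] (i₀ : ∀ j, ι j)
    (a : ∀ j, ι j → E) (ha : ∀ j i, a j i ≠ 0) (d : ∀ j, ι j → Fin n → ℕ)
    (g : ∀ j i s, Fin (d j i s) → K) (hgV : ∀ j i s t, g j i s t ∈ V s)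
    (hg0 : ∀ j i s t, g j i s t ≠ 0) (e : ∀ j, ι j → Fin r → ℕ) (f : Fin r → K)
    (he : ∀ j i l, e j i l ≠ 0 → l < j ∧ f l ≠ 0)
    (hf : ∀ j, f j = ∑ i, algebraMap E K (a j i) * ((∏ s, ∏ t, g j i s t) * ∏ l, f l ^ e j i l))
    (deg : Fin r → Fin n → ZMod p)
    (hdeg : ∀ j, deg j = degree deg (d j (i₀ j)) (e j (i₀ j)))
    (hind : LinearIndependent (ZMod p) fun q : (j : Fin r) × {i : ι j // i ≠ i₀ j} =>
      degree deg (d q.1 q.2) (e q.1 q.2) - deg q.1)
    (htr : Algebra.trdeg E K + (Nat.card {j // f j = 0} : Cardinal.{u}) =
      ((∑ s, Module.finrank E (V s) : ℕ) : Cardinal.{u}))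
    [CommRing R] [IsDomain R] [Algebra k R] [Algebra R K] [IsScalarTower k R K]
    [IsFractionRing R K] (S : Finset Kˣ) (hS : ∀ x ∈ S, x ∈ products V f)
    (hR : (IsScalarTower.toAlgHom k R K).range = Algebra.adjoin k (Units.val '' (S : Set Kˣ)))
    (z m : ℕ) (c : Fin z → R) (v : Fin z → Fin m → R) (b : Fin z → E) (b' : Fin z → Fin m → E)
    (ε : Fin z → Kˣ) (hε : ∀ l, ε l ∈ products V f) (μ : Fin m → Kˣ)
    (hμ : ∀ j, μ j ∈ products V f)
    (hc : ∀ l, algebraMap R K (c l) = algebraMap E K (b l) * (ε l : K) ^ (p - 1))
    (hv : ∀ l j, algebraMap R K (v l j) = algebraMap E K (b' l j) * ((μ j : K) * (ε l : K)⁻¹)) :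
    IsResolvableVariety (X := Spec (CommRingCat.of (invariants p c v)))
      (Spec.map (CommRingCat.ofHom (algebraMap k (invariants p c v)))) := by
  classical
  have hM : ∀ x : Kˣ, x ∈ products V f → (x : K) ∈ Pool.Agent.Q86.TO.ForM V f :=
    fun x hx => ⟨x, hx, rfl⟩
  refine Pool.Agent.Q86.TO.mainK (p := p) (K := K)
    (Pool.Agent.Q86.TO.hasLMs_forms p k E K hE.hasLM n V hgen r ι i₀ a ha d g hgV hg0 e f he hf deg
      hdeg hind htr) ?_ (List.ofFn (fun l => (c l, v l))) ?_ _ ?_
  · refine ⟨S.image Units.val, ?_, ?_⟩
    · rw [Finset.coe_image]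
      exact hR.symm
    · intro x hx _
      obtain ⟨y, hy, rfl⟩ := Finset.mem_image.1 hx
      exact ⟨1, ⟨1, map_one _⟩, y, hM y (hS y hy), (one_mul _).symm⟩
  · intro y hy _
    refine Pool.Agent.Q86.TO.funs_mul (Fact.out : p.Prime) (algebraMap E K).fieldRange
      (Pool.Agent.Q86.TO.ForM V f) (Pool.Agent.Q86.TO.forM_inv V f) (Pool.Agent.Q86.TO.forM_ne V f)
      _ _ (fun j => (μ j : K)) (fun j => hM _ (hμ j)) ?_ y hy
    intro it hit
    obtain ⟨it', hit', rfl⟩ := List.mem_map.1 hit
    obtain ⟨l, rfl⟩ := (List.mem_ofFn' _ _).1 hit'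
    exact ⟨ε l, hM _ (hε l), ⟨_, ⟨b l, rfl⟩, hc l⟩, fun j => ⟨_, ⟨b' l j, rfl⟩, hv l j⟩⟩
  · intro f
    rw [List.forall_mem_ofFn_iff]
    exact Iff.rfl

end Pool.Agent.Results.MP_19ffc6_ag.QuotientsOverFormVarieties
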